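import Mathlib
import Pool.Agent.H317F.Rich

set_option autoImplicit false

/-!
A free action of `ℤ` on a compact metrizable space without finite dynamical complexity.

The group `ℤ` has finite decomposition complexity and is amenable, so all its actions on compact
spaces are amenable. The action is the shift on a free compact subsystem of `[0,1]^ℤ`. Topological
groupoids, amenability and transformation groupoids are defined in `Pool.Agent.H317F.Gpd`.
-/

namespace Pool.Agent.Results.MP_17e467_an.FreeZActionNonFDC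

open H317F

section GroupFDC

variable {Γ : Type}

/-- Proper left-invariant metrics on a group. -/
structure IsProperLeftInvMetric [Group Γ] (d : Γ → Γ → ℝ) : Prop where
  self : ∀ x, d x x = 0
  pos : ∀ x y, x ≠ y → 0 < d x y
  symm : ∀ x y, d x y = d y x
  triangle : ∀ x y z, d x z ≤ d x y + d y z
  left_inv : ∀ g x y, d (g * x) (g * y) = d x y
  proper : ∀ r : ℝ, {x | d 1 x ≤ r}.Finite

/-- A family of subsets of `Γ` is uniformly bounded for `d`. -/
def UnifBounded (d : Γ → Γ → ℝ) (𝒳 : Set (Set Γ)) : Prop :=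
  ∃ C : ℝ, ∀ A ∈ 𝒳, ∀ x ∈ A, ∀ y ∈ A, d x y ≤ C

/-- Distinct members of the family are at distance `> r`. -/
def FarApart (d : Γ → Γ → ℝ) (r : ℝ) (𝒰 : Set (Set Γ)) : Prop :=
  ∀ A ∈ 𝒰, ∀ B ∈ 𝒰, A ≠ B → ∃ r' > r, ∀ a ∈ A, ∀ b ∈ B, r' ≤ d a b

/-- The family `𝒳` `r`-decomposes over the family `𝒴`. -/
def RDecomposes (d : Γ → Γ → ℝ) (r : ℝ) (𝒳 𝒴 : Set (Set Γ)) : Prop :=
  ∀ Z ∈ 𝒳, ∃ 𝒰 𝒱 : Set (Set Γ), 𝒰 ⊆ 𝒴 ∧ 𝒱 ⊆ 𝒴 ∧ Z = ⋃₀ 𝒰 ∪ ⋃₀ 𝒱 ∧
    FarApart d r 𝒰 ∧ FarApart d r 𝒱

/-- The smallest class of families of subspaces of `(Γ, d)` that contains the uniformly bounded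
families and contains `𝒳` whenever for every `r > 0` it contains a family over which `𝒳`
`r`-decomposes. -/
def InFrakD (d : Γ → Γ → ℝ) (𝒳 : Set (Set Γ)) : Prop :=
  ∀ 𝔈 : Set (Set (Set Γ)), (∀ 𝒴, UnifBounded d 𝒴 → 𝒴 ∈ 𝔈) →
    (∀ 𝒵, (∀ r > 0, ∃ 𝒴 ∈ 𝔈, RDecomposes d r 𝒵 𝒴) → 𝒵 ∈ 𝔈) → 𝒳 ∈ 𝔈

/-- Finite decomposition complexity of a group: it carries a proper left-invariant metric, and
`{Γ}` belongs to the class `𝔇` for every such metric. -/
def GroupFDC (Γ : Type) [Group Γ] : Prop :=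
  (∃ d : Γ → Γ → ℝ, IsProperLeftInvMetric d) ∧
    ∀ d : Γ → Γ → ℝ, IsProperLeftInvMetric d → InFrakD d {Set.univ}

/-- `ℤ` has finite decomposition complexity. -/
lemma groupFDC_int : GroupFDC (Multiplicative ℤ) := by
  constructor
  · refine ⟨fun x y => |((Multiplicative.toAdd x : ℤ) : ℝ) - (Multiplicative.toAdd y : ℤ)|,
      ?_, ?_, ?_, ?_, ?_, ?_⟩
    · intro x; simp
    · intro x y hxy
      apply abs_pos.mpr
      rw [sub_ne_zero]
      intro h
      apply hxy
      apply Multiplicative.toAdd.injective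
      exact_mod_cast h
    · intro x y; exact abs_sub_comm _ _
    · intro x y z; exact abs_sub_le _ _ _
    · intro g x y
      simp only [toAdd_mul]
      push_cast
      congr 1
      ring
    · intro r
      have h1 : {x : Multiplicative ℤ | |((Multiplicative.toAdd (1 : Multiplicative ℤ) : ℤ) : ℝ) -
          (Multiplicative.toAdd x : ℤ)| ≤ r} ⊆
          Multiplicative.ofAdd '' (Set.Icc (-⌈r⌉) ⌈r⌉) := by
        intro x hx
        refine ⟨Multiplicative.toAdd x, ?_, rfl⟩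
        have h2 : |((Multiplicative.toAdd x : ℤ) : ℝ)| ≤ r := by
          have : |((Multiplicative.toAdd (1 : Multiplicative ℤ) : ℤ) : ℝ) -
            (Multiplicative.toAdd x : ℤ)| ≤ r := hx
          rw [toAdd_one, Int.cast_zero, zero_sub, abs_neg] at this
          exact this
        obtain ⟨h3, h4⟩ := abs_le.mp (h2.trans (Int.le_ceil r))
        exact ⟨by exact_mod_cast h3, by exact_mod_cast h4⟩
      exact ((Set.finite_Icc _ _).image _).subset h1
  · intro d hd 𝔈 hbdd hdec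
    apply hdec
    intro r hr
    -- the ball of radius `r + 1`
    obtain ⟨N, hN⟩ : ∃ N : ℕ, ∀ x : Multiplicative ℤ, d 1 x ≤ r + 1 →
        (Multiplicative.toAdd x).natAbs ≤ N := by
      have h1 := ((hd.proper (r + 1)).image
        (fun x : Multiplicative ℤ => (Multiplicative.toAdd x).natAbs)).bddAbove
      obtain ⟨N, hN⟩ := h1
      exact ⟨N, fun x hx => hN ⟨x, hx, rfl⟩⟩
    -- blocks
    let A : ℤ → Set (Multiplicative ℤ) := fun k =>
      {x | k * (N + 1) ≤ Multiplicative.toAdd x ∧ Multiplicative.toAdd x < (k + 1) * (N + 1)}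
    have hdist : ∀ x y : Multiplicative ℤ,
        (N : ℤ) < |Multiplicative.toAdd y - Multiplicative.toAdd x| → r + 1 < d x y := by
      intro x y hxy
      by_contra hcon
      push Not at hcon
      have h1 : d 1 (x⁻¹ * y) = d x y := by
        rw [← hd.left_inv x 1 (x⁻¹ * y)]
        simp
      have h2 := hN (x⁻¹ * y) (by rw [h1]; exact hcon)
      rw [toAdd_mul, toAdd_inv] at h2
      rw [show Multiplicative.toAdd y - Multiplicative.toAdd x =
        -Multiplicative.toAdd x + Multiplicative.toAdd y by ring, ← Int.natCast_natAbs] at hxy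
      omega
    have hfar : ∀ k l : ℤ, k + 2 ≤ l → ∀ x ∈ A k, ∀ y ∈ A l,
        (N : ℤ) < |Multiplicative.toAdd y - Multiplicative.toAdd x| := by
      rintro k l hkl x ⟨_, hx⟩ y ⟨hy, _⟩
      have h1 : (k + 1) * (N + 1) + (N + 1 : ℤ) ≤ l * (N + 1) := by nlinarith
      rw [lt_abs]
      left
      linarith
    have hFA : ∀ s : ℤ → Prop, (∀ k l, s k → s l → k ≠ l → k + 2 ≤ l ∨ l + 2 ≤ k) →
        FarApart d r {B | ∃ k, s k ∧ B = A k} := by
      rintro s hs B ⟨k, hk, rfl⟩ B' ⟨l, hl, rfl⟩ hne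
      refine ⟨r + 1, by linarith, fun a ha b hb => ?_⟩
      have hkl : k ≠ l := by rintro rfl; exact hne rfl
      rcases hs k l hk hl hkl with h | h
      · exact (hdist a b (hfar k l h a ha b hb)).le
      · rw [hd.symm]
        exact (hdist b a (hfar l k h b hb a ha)).le
    refine ⟨{B | ∃ k, B = A k}, hbdd _ ?_, ?_⟩
    · -- uniformly bounded
      have hfin : (Multiplicative.ofAdd '' (Set.Icc (-(N : ℤ)) N)).Finite :=
        (Set.finite_Icc _ _).image _
      obtain ⟨C, hC⟩ := (hfin.image (fun x => d 1 x)).bddAbove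
      refine ⟨C, ?_⟩
      rintro B ⟨k, rfl⟩ x ⟨hx1, hx2⟩ y ⟨hy1, hy2⟩
      have h1 : d 1 (x⁻¹ * y) = d x y := by
        rw [← hd.left_inv x 1 (x⁻¹ * y)]
        simp
      rw [← h1]
      apply hC
      refine ⟨x⁻¹ * y, ⟨Multiplicative.toAdd (x⁻¹ * y), ?_, rfl⟩, rfl⟩
      rw [toAdd_mul, toAdd_inv]
      have h3 : (k + 1) * ((N : ℤ) + 1) = k * (N + 1) + (N + 1) := by ring
      constructor <;> linarith
    · rintro Z hZ
      rw [Set.mem_singleton_iff] at hZ
      subst hZ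
      refine ⟨{B | ∃ k, Even k ∧ B = A k}, {B | ∃ k, Odd k ∧ B = A k}, ?_, ?_, ?_, ?_, ?_⟩
      · rintro B ⟨k, _, rfl⟩; exact ⟨k, rfl⟩
      · rintro B ⟨k, _, rfl⟩; exact ⟨k, rfl⟩
      · symm
        rw [Set.eq_univ_iff_forall]
        intro x
        have hmem : x ∈ A (Multiplicative.toAdd x / (N + 1)) := by
          have hpos : (0 : ℤ) < N + 1 := by positivity
          constructor
          · exact Int.ediv_mul_le _ hpos.ne'
          · exact Int.lt_ediv_add_one_mul_self _ hpos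
        rcases Int.even_or_odd (Multiplicative.toAdd x / (N + 1)) with h | h
        · exact Or.inl ⟨_, ⟨_, h, rfl⟩, hmem⟩
        · exact Or.inr ⟨_, ⟨_, h, rfl⟩, hmem⟩
      · apply hFA
        rintro k l ⟨a, ha⟩ ⟨b, hb⟩ hkl
        omega
      · apply hFA
        rintro k l ⟨a, ha⟩ ⟨b, hb⟩ hkl
        omega

end GroupFDC

section DynFDC

variable {X G : Type} [TopologicalSpace X] [TopologicalSpace G]

/-- The open subgroupoid `H` is decomposable over the class `𝒞`, tested on the open sets `K ⊆ H`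
with compact closure for which moreover `P K H` holds. -/
def DecomposableFor (P : Set G → Set G → Prop) (𝒢 : TopGpd X G) (𝒞 : Set (Set G)) (H : Set G) :
    Prop :=
  ∀ K ⊆ H, IsOpen K → IsCompact (closure K) → P K H →
    ∃ U₀ U₁ : Set X, IsOpen U₀ ∧ IsOpen U₁ ∧ 𝒢.units H = U₀ ∪ U₁ ∧
      (∃ C₀ ∈ 𝒞, 𝒢.gen {g ∈ K | 𝒢.s g ∈ U₀ ∧ 𝒢.r g ∈ U₀} ⊆ C₀) ∧
      (∃ C₁ ∈ 𝒞, 𝒢.gen {g ∈ K | 𝒢.s g ∈ U₁ ∧ 𝒢.r g ∈ U₁} ⊆ C₁)

/-- Admissible classes of open subgroupoids. -/
structure IsAdmissibleFor (P : Set G → Set G → Prop) (𝒢 : TopGpd X G) (𝒞 : Set (Set G)) :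
    Prop where
  openSubgpd : ∀ H ∈ 𝒞, 𝒢.IsOpenSubgpd H
  relCompact_mem : ∀ H, 𝒢.IsOpenSubgpd H → IsCompact (closure H) → H ∈ 𝒞
  closed : ∀ H, 𝒢.IsOpenSubgpd H → DecomposableFor P 𝒢 𝒞 H → H ∈ 𝒞

/-- Finite dynamical complexity, with decomposability tested on all relatively compact open subsets
`K` of `H` (closure taken in `G`): `G` lies in the smallest admissible class. -/
def HasFDC (𝒢 : TopGpd X G) : Prop :=
  ∀ 𝒞 : Set (Set G), IsAdmissibleFor (fun _ _ => True) 𝒢 𝒞 → Set.univ ∈ 𝒞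

/-- The formally weaker property in which decomposability is only tested on those open `K` whose
closure is compact and contained in `H`. -/
def HasWeakFDC (𝒢 : TopGpd X G) : Prop :=
  ∀ 𝒞 : Set (Set G), IsAdmissibleFor (fun K H => closure K ⊆ H) 𝒢 𝒞 → Set.univ ∈ 𝒞

end DynFDC

/-- **Theorem.** The group `ℤ` has finite decomposition complexity, and it has a free amenable
action on a compact metrizable space that does not have finite dynamical complexity (in either
reading of relatively compact subset of `H`). -/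
theorem result : GroupFDC (Multiplicative ℤ) ∧
    ∃ (X : Type) (_ : TopologicalSpace X) (_ : MulAction (Multiplicative ℤ) X)
      (_ : ContinuousConstSMul (Multiplicative ℤ) X),
      CompactSpace X ∧ T2Space X ∧ TopologicalSpace.MetrizableSpace X ∧
      (∀ (γ : Multiplicative ℤ) (x : X), γ • x = x → γ = 1) ∧
      (transGpd (Multiplicative ℤ) X).Amenable ∧
      ¬ HasFDC (transGpd (Multiplicative ℤ) X) ∧
      ¬ HasWeakFDC (transGpd (Multiplicative ℤ) X) := by
  refine ⟨groupFDC_int, XT, inferInstance, inferInstance, inferInstance, inferInstance,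
    inferInstance, inferInstance, XT_free, trans_amenable _, ?_⟩
  have key : ∀ P : Set GG → Set GG → Prop, (∀ K H, closure K ⊆ H → P K H) →
      IsAdmissibleFor P Zg {H : Set GG | Zg.IsOpenSubgpd H ∧ ¬ Rich H} := by
    intro P hP
    refine ⟨fun H hH => hH.1, fun H hH hc => ⟨hH, not_rich_of_relCompact hH.2 hc⟩, ?_⟩
    intro H hH hdec
    refine ⟨hH, fun hr => ?_⟩
    obtain ⟨K, hKo, hKH, hKc, hKcl, hK⟩ := rich_step hH.1 hH.2 hr
    obtain ⟨U₀, U₁, h3, h4, h5, ⟨C₀, h6, h6'⟩, ⟨C₁, h7, h7'⟩⟩ := hdec K hKH hKo hKc (hP K H hKcl)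
    rcases hK U₀ U₁ h3 h4 h5.le with h | h
    · exact h6.2 (h.mono h6')
    · exact h7.2 (h.mono h7')
  constructor
  · intro hD
    exact (hD _ (key _ fun _ _ _ => trivial)).2 rich_univ
  · intro hD
    exact (hD _ (key _ fun _ _ h => h)).2 rich_univ

end Pool.Agent.Results.MP_17e467_an.FreeZActionNonFDC
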